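import Pool.Agent.Helper21.WE.Stmts

set_option autoImplicit false

open Matrix Polynomial

namespace MT

namespace KRD82

variable {K : Type} [Field K] [CharZero K] {n r u : ℕ}

lemma cp_dg (P : Matrix.GeneralLinearGroup (Fin n) K) (h : Fin n → ℤ) :
    (dg P h).charpoly = ∏ j, (X - C (h j : K)) := by
  unfold dg
  rw [Matrix.coe_units_inv, Matrix.charpoly_units_conj, Matrix.charpoly_diagonal]

lemma cp_conj (R : Matrix.GeneralLinearGroup (Fin n) K) (A : Matrix (Fin n) (Fin n) K) :
    (((R⁻¹ : Matrix.GeneralLinearGroup (Fin n) K) : Matrix (Fin n) (Fin n) K) * A *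
        (R : Matrix (Fin n) (Fin n) K)).charpoly = A.charpoly := by
  rw [Matrix.coe_units_inv]
  exact Matrix.charpoly_units_conj' R A

omit [CharZero K] in
lemma cp_sub {m : Type} [Fintype m] [DecidableEq m] (e : Fin n ≃ m) (A : Matrix m m K) :
    (A.submatrix e e).charpoly = A.charpoly := by
  have := Matrix.charpoly_reindex e.symm A
  simpa [Matrix.reindex_apply] using this

lemma count_dg (h : Fin n → ℤ) (p : ℤ) :
    (∏ j, (X - C (h j : K))).rootMultiplicity (p : K) = (Finset.univ.filter fun j => h j = p).card := by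
  classical
  rw [← Polynomial.count_roots]
  have h1 : (∏ j, (X - C (h j : K))).roots = Finset.univ.val.map (fun j => (h j : K)) := by
    have := Polynomial.roots_multiset_prod_X_sub_C (Finset.univ.val.map (fun j => (h j : K)))
    rw [Multiset.map_map] at this
    exact this
  rw [h1, Multiset.count_map]
  have h2 : (Multiset.filter (fun a => (p : K) = (h a : K)) (Finset.univ : Finset (Fin n)).val) =
      (Finset.univ.filter fun j => h j = p).val := by
    rw [Finset.filter_val]
    apply Multiset.filter_congr
    intro j _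
    constructor
    · intro hj
      exact (Int.cast_injective hj).symm
    · intro hj
      rw [hj]
  rw [h2]
  rfl

lemma cp_kr1 (X' : Matrix (Fin u) (Fin u) K) :
    (Matrix.kronecker (1 : Matrix (Fin r) (Fin r) K) X').charpoly = X'.charpoly ^ r := by
  have h : charmatrix (Matrix.kronecker (1 : Matrix (Fin r) (Fin r) K) X') =
      Matrix.kronecker (1 : Matrix (Fin r) (Fin r) K[X]) (charmatrix X') := by
    apply Matrix.ext
    rintro ⟨i, k⟩ ⟨j, l⟩
    rw [charmatrix_apply]
    show _ - C ((1 : Matrix (Fin r) (Fin r) K) i j * X' k l) =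
      (1 : Matrix (Fin r) (Fin r) K[X]) i j * charmatrix X' k l
    rw [charmatrix_apply]
    by_cases hij : i = j
    · subst hij
      by_cases hkl : k = l
      · subst hkl; simp
      · simp [hkl, Matrix.diagonal_apply]
    · simp [hij, Matrix.diagonal_apply]
  unfold Matrix.charpoly
  rw [h]
  refine (Matrix.det_kronecker _ _).trans ?_
  simp

lemma cp_kr2 (Y : Matrix (Fin r) (Fin r) K) :
    (Matrix.kronecker Y (1 : Matrix (Fin u) (Fin u) K)).charpoly = Y.charpoly ^ u := by
  have h : charmatrix (Matrix.kronecker Y (1 : Matrix (Fin u) (Fin u) K)) =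
      Matrix.kronecker (charmatrix Y) (1 : Matrix (Fin u) (Fin u) K[X]) := by
    apply Matrix.ext
    rintro ⟨i, k⟩ ⟨j, l⟩
    rw [charmatrix_apply]
    show _ - C (Y i j * (1 : Matrix (Fin u) (Fin u) K) k l) =
      charmatrix Y i j * (1 : Matrix (Fin u) (Fin u) K[X]) k l
    rw [charmatrix_apply]
    by_cases hkl : k = l
    · subst hkl
      by_cases hij : i = j
      · subst hij; simp
      · simp [hij, Matrix.diagonal_apply]
    · simp [hkl, Matrix.diagonal_apply]
  unfold Matrix.charpoly
  rw [h]
  refine (Matrix.det_kronecker _ _).trans ?_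
  simp

end KRD82

open KRD82 in
theorem st_KRD : ST_KRD := by
  intro K _ _ n r u e R P h
  constructor
  · intro X' hX p
    have h1 := congrArg Matrix.charpoly hX
    rw [cp_conj, cp_sub, cp_kr1, cp_dg] at h1
    classical
    rw [← count_dg (K := K) h p, h1, ← Polynomial.count_roots, Polynomial.roots_pow,
      Multiset.count_nsmul]
    exact Dvd.intro _ rfl
  · intro Y hY p
    have h1 := congrArg Matrix.charpoly hY
    rw [cp_conj, cp_sub, cp_kr2, cp_dg] at h1
    classical
    rw [← count_dg (K := K) h p, h1, ← Polynomial.count_roots, Polynomial.roots_pow,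
      Multiset.count_nsmul]
    exact Dvd.intro _ rfl

end MT
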