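import Pool.Agent.Helper21.WE.Stmts

/-!
# Row TRI: the position of an element with eigenvalues 1, 0, -1
-/

set_option autoImplicit false

open Matrix

open scoped Kronecker

namespace MT

namespace TRI82

variable {K : Type} [Field K] {n r u : ℕ}

/-- conjugation -/
def cj (R : Matrix.GeneralLinearGroup (Fin n) K) :
    Matrix (Fin n) (Fin n) K →ₐ[K] Matrix (Fin n) (Fin n) K where
  toFun A := ((R⁻¹ : Matrix.GeneralLinearGroup (Fin n) K) : Matrix (Fin n) (Fin n) K) * A *
    (R : Matrix (Fin n) (Fin n) K)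
  map_one' := by
    rw [Matrix.mul_one, ← Units.val_mul, inv_mul_cancel, Units.val_one]
  map_mul' A B := by
    have h : (R : Matrix (Fin n) (Fin n) K) *
        ((R⁻¹ : Matrix.GeneralLinearGroup (Fin n) K) : Matrix (Fin n) (Fin n) K) = 1 := by
      rw [← Units.val_mul, mul_inv_cancel, Units.val_one]
    calc ((R⁻¹ : Matrix.GeneralLinearGroup (Fin n) K) : Matrix (Fin n) (Fin n) K) * (A * B) *
          (R : Matrix (Fin n) (Fin n) K)
        = ((R⁻¹ : Matrix.GeneralLinearGroup (Fin n) K) : Matrix (Fin n) (Fin n) K) * A * 1 * B *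
          (R : Matrix (Fin n) (Fin n) K) := by simp only [Matrix.mul_assoc, Matrix.one_mul]
      _ = _ := by rw [← h]; simp only [Matrix.mul_assoc]
  map_zero' := by rw [Matrix.mul_zero, Matrix.zero_mul]
  map_add' A B := by rw [Matrix.mul_add, Matrix.add_mul]
  commutes' c := by
    rw [← Algebra.commutes, mul_assoc, ← Units.val_mul, inv_mul_cancel, Units.val_one, mul_one]

lemma cj_apply (R : Matrix.GeneralLinearGroup (Fin n) K) (A : Matrix (Fin n) (Fin n) K) :
    cj R A = ((R⁻¹ : Matrix.GeneralLinearGroup (Fin n) K) : Matrix (Fin n) (Fin n) K) * A *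
    (R : Matrix (Fin n) (Fin n) K) := rfl

lemma cj_cancel (R : Matrix.GeneralLinearGroup (Fin n) K) (A : Matrix (Fin n) (Fin n) K) :
    (R : Matrix (Fin n) (Fin n) K) * cj R A *
      ((R⁻¹ : Matrix.GeneralLinearGroup (Fin n) K) : Matrix (Fin n) (Fin n) K) = A := by
  have h : (R : Matrix (Fin n) (Fin n) K) *
      ((R⁻¹ : Matrix.GeneralLinearGroup (Fin n) K) : Matrix (Fin n) (Fin n) K) = 1 := by
    rw [← Units.val_mul, mul_inv_cancel, Units.val_one]
  rw [cj_apply]
  calc (R : Matrix (Fin n) (Fin n) K) *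
        (((R⁻¹ : Matrix.GeneralLinearGroup (Fin n) K) : Matrix (Fin n) (Fin n) K) * A *
        (R : Matrix (Fin n) (Fin n) K)) *
        ((R⁻¹ : Matrix.GeneralLinearGroup (Fin n) K) : Matrix (Fin n) (Fin n) K)
      = ((R : Matrix (Fin n) (Fin n) K) *
        ((R⁻¹ : Matrix.GeneralLinearGroup (Fin n) K) : Matrix (Fin n) (Fin n) K)) * A *
        ((R : Matrix (Fin n) (Fin n) K) *
        ((R⁻¹ : Matrix.GeneralLinearGroup (Fin n) K) : Matrix (Fin n) (Fin n) K)) := by
        simp only [Matrix.mul_assoc]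
    _ = A := by rw [h, Matrix.one_mul, Matrix.mul_one]

lemma cj_inj (R : Matrix.GeneralLinearGroup (Fin n) K) {A B : Matrix (Fin n) (Fin n) K}
    (h : cj R A = cj R B) : A = B := by
  rw [← cj_cancel R A, ← cj_cancel R B, h]

lemma cj_trace (R : Matrix.GeneralLinearGroup (Fin n) K) (A : Matrix (Fin n) (Fin n) K) :
    (cj R A).trace = A.trace := by
  rw [cj_apply, Matrix.trace_mul_comm, ← Matrix.mul_assoc, ← Units.val_mul, mul_inv_cancel,
    Units.val_one, Matrix.one_mul]

lemma cj_det (R : Matrix.GeneralLinearGroup (Fin n) K) (A : Matrix (Fin n) (Fin n) K) :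
    (cj R A).det = A.det := by
  have h : ((R⁻¹ : Matrix.GeneralLinearGroup (Fin n) K) : Matrix (Fin n) (Fin n) K).det *
      (R : Matrix (Fin n) (Fin n) K).det = 1 := by
    rw [← Matrix.det_mul, ← Units.val_mul, inv_mul_cancel, Units.val_one, Matrix.det_one]
  rw [cj_apply, Matrix.det_mul, Matrix.det_mul]
  calc _ = (((R⁻¹ : Matrix.GeneralLinearGroup (Fin n) K) : Matrix (Fin n) (Fin n) K).det *
      (R : Matrix (Fin n) (Fin n) K).det) * A.det := by ring
    _ = _ := by rw [h, one_mul]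

/-- conjugation and reindexing -/
def Ph (e : Fin n ≃ Fin r × Fin u) (R : Matrix.GeneralLinearGroup (Fin n) K) :
    Matrix (Fin n) (Fin n) K →ₐ[K] Matrix (Fin r × Fin u) (Fin r × Fin u) K :=
  ((Matrix.reindexAlgEquiv K K e) : Matrix (Fin n) (Fin n) K →ₐ[K]
    Matrix (Fin r × Fin u) (Fin r × Fin u) K).comp (cj R)

lemma Ph_apply (e : Fin n ≃ Fin r × Fin u) (R : Matrix.GeneralLinearGroup (Fin n) K)
    (A : Matrix (Fin n) (Fin n) K) : Ph e R A = (cj R A).submatrix e.symm e.symm := rfl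

lemma Ph_inj (e : Fin n ≃ Fin r × Fin u) (R : Matrix.GeneralLinearGroup (Fin n) K)
    {A B : Matrix (Fin n) (Fin n) K} (h : Ph e R A = Ph e R B) : A = B := by
  apply cj_inj R
  rw [Ph_apply, Ph_apply] at h
  ext i j
  have := congrFun (congrFun h (e i)) (e j)
  simpa using this

lemma Ph_trace (e : Fin n ≃ Fin r × Fin u) (R : Matrix.GeneralLinearGroup (Fin n) K)
    (A : Matrix (Fin n) (Fin n) K) : (Ph e R A).trace = A.trace := by
  rw [Ph_apply, ← cj_trace R A]
  unfold Matrix.trace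
  exact Equiv.sum_comp e.symm (fun j => cj R A j j)

lemma Ph_det (e : Fin n ≃ Fin r × Fin u) (R : Matrix.GeneralLinearGroup (Fin n) K)
    (A : Matrix (Fin n) (Fin n) K) : (Ph e R A).det = A.det := by
  rw [Ph_apply, Matrix.det_submatrix_equiv_self, cj_det]

lemma Ph_eq (e : Fin n ≃ Fin r × Fin u) (R : Matrix.GeneralLinearGroup (Fin n) K)
    (A : Matrix (Fin n) (Fin n) K) (M : Matrix (Fin r × Fin u) (Fin r × Fin u) K)
    (h : ((R⁻¹ : Matrix.GeneralLinearGroup (Fin n) K) : Matrix (Fin n) (Fin n) K) * A *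
            (R : Matrix (Fin n) (Fin n) K) = M.submatrix e e) : Ph e R A = M := by
  rw [Ph_apply, cj_apply, h]
  ext i j
  simp

lemma skew_det {ψ x : Matrix (Fin n) (Fin n) K} (hψ : ψ.det ≠ 0)
    (hx : x.transpose * ψ + ψ * x = 0) (α : K) (h : (x - α • 1).det = 0) :
    (x + α • 1).det = 0 := by
  have h1 : ψ * (x - α • 1) = -((x + α • 1).transpose * ψ) := by
    rw [Matrix.mul_sub, Matrix.transpose_add, Matrix.transpose_smul, Matrix.transpose_one,
      Matrix.add_mul, Matrix.mul_smul, Matrix.smul_mul, Matrix.mul_one, Matrix.one_mul]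
    have : ψ * x = -(x.transpose * ψ) := by
      rw [eq_neg_iff_add_eq_zero, add_comm]
      exact hx
    rw [this]
    abel
  have h2 := congrArg Matrix.det h1
  rw [Matrix.det_mul, h, mul_zero, Matrix.det_neg, Matrix.det_mul, Matrix.det_transpose] at h2
  have h3 : (-1 : K) ^ Fintype.card (Fin n) ≠ 0 := pow_ne_zero _ (neg_ne_zero.2 one_ne_zero)
  have h4 := (mul_eq_zero.1 h2.symm).resolve_left h3
  exact (mul_eq_zero.1 h4).resolve_right hψ

lemma skew_trace [CharZero K] {ψ x : Matrix (Fin n) (Fin n) K} (hψ : ψ.det ≠ 0)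
    (hx : x.transpose * ψ + ψ * x = 0) : x.trace = 0 := by
  have hu : IsUnit ψ.det := isUnit_iff_ne_zero.2 hψ
  have h1 : ψ⁻¹ * (x.transpose * ψ) = -x := by
    have : x.transpose * ψ = -(ψ * x) := by
      rw [eq_neg_iff_add_eq_zero]
      exact hx
    rw [this, Matrix.mul_neg, ← Matrix.mul_assoc, Matrix.nonsing_inv_mul _ hu, Matrix.one_mul]
  have h2 : (ψ⁻¹ * (x.transpose * ψ)).trace = x.trace := by
    rw [Matrix.trace_mul_comm, Matrix.mul_assoc, Matrix.mul_nonsing_inv _ hu, Matrix.mul_one,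
      Matrix.trace_transpose]
  rw [h1, Matrix.trace_neg] at h2
  have h3 : (2 : K) * x.trace = 0 := by linear_combination -h2
  exact (mul_eq_zero.1 h3).resolve_left two_ne_zero

lemma inter {m k : Type} [Fintype m] [Fintype k] (T : Matrix m m K) (J : Matrix m k K)
    (Z : Matrix k k K) (hJ : ∀ A B : Matrix k k K, J * A = J * B → A = B)
    (hTJ : T * J = J * Z) (hT : T * T * T = T) : Z * Z * Z = Z := by
  apply hJ
  calc J * (Z * Z * Z) = ((J * Z) * Z) * Z := by simp only [Matrix.mul_assoc]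
    _ = T * T * T * J := by
        rw [← hTJ, Matrix.mul_assoc T J Z, ← hTJ, Matrix.mul_assoc T (T * J) Z,
          Matrix.mul_assoc T J Z, ← hTJ]
        simp only [Matrix.mul_assoc]
    _ = J * Z := by rw [hT, hTJ]

/-- the operator of the element -/
def TT (Y : Matrix (Fin r) (Fin r) K) (X : Matrix (Fin u) (Fin u) K) :
    Matrix (Fin r × Fin u) (Fin r × Fin u) K :=
  (1 : Matrix (Fin r) (Fin r) K) ⊗ₖ X + Y ⊗ₖ (1 : Matrix (Fin u) (Fin u) K)

lemma evY {Y : Matrix (Fin r) (Fin r) K} {X : Matrix (Fin u) (Fin u) K}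
    (hT : TT Y X * TT Y X * TT Y X = TT Y X) {α : K} (hα : (Y - α • 1).det = 0) :
    (X + α • 1) * (X + α • 1) * (X + α • 1) = X + α • 1 := by
  obtain ⟨v, hv, hv0⟩ := Matrix.exists_mulVec_eq_zero_iff.2 hα
  obtain ⟨i0, hi0⟩ : ∃ i, v i ≠ 0 := by
    by_contra hcon
    push Not at hcon
    exact hv (funext hcon)
  have hY : ∀ i, ∑ j, Y i j * v j = α * v i := by
    intro i
    have h1 := congrFun hv0 i
    rw [Matrix.sub_mulVec, Matrix.smul_mulVec, Matrix.one_mulVec] at h1
    simp only [Pi.sub_apply, Pi.smul_apply, smul_eq_mul, Pi.zero_apply, Matrix.mulVec,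
      dotProduct] at h1
    linear_combination h1
  let J : Matrix (Fin r × Fin u) (Fin u) K := Matrix.of fun p l => v p.1 * (if p.2 = l then 1 else 0)
  have hJA : ∀ (A : Matrix (Fin u) (Fin u) K) (p : Fin r × Fin u) (l : Fin u),
      (J * A) p l = v p.1 * A p.2 l := by
    intro A p l
    simp only [J, Matrix.mul_apply, Matrix.of_apply]
    rw [Finset.sum_eq_single p.2]
    · simp
    · intro b _ hb
      rw [if_neg (Ne.symm hb)]
      ring
    · intro h
      exact absurd (Finset.mem_univ _) h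
  refine inter (TT Y X) J _ ?_ ?_ hT
  · intro A B hAB
    ext k l
    have h1 := congrFun (congrFun hAB (i0, k)) l
    rw [hJA, hJA] at h1
    exact mul_left_cancel₀ hi0 h1
  · ext p l
    obtain ⟨i, k⟩ := p
    rw [hJA, TT, Matrix.add_mul, Matrix.add_apply]
    have h1 : ((1 : Matrix (Fin r) (Fin r) K) ⊗ₖ X * J) (i, k) l = v i * X k l := by
      rw [Matrix.mul_apply, Fintype.sum_prod_type]
      change ∑ j, ∑ m, ((1 : Matrix (Fin r) (Fin r) K) i j * X k m) *
        (v j * (if m = l then 1 else 0)) = _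
      rw [Finset.sum_eq_single i]
      · rw [Finset.sum_eq_single l]
        · rw [Matrix.one_apply_eq, if_pos rfl]
          ring
        · intro b _ hb
          rw [if_neg hb]
          ring
        · intro h
          exact absurd (Finset.mem_univ _) h
      · intro b _ hb
        rw [Matrix.one_apply_ne (Ne.symm hb)]
        simp
      · intro h
        exact absurd (Finset.mem_univ _) h
    have h2 : (Y ⊗ₖ (1 : Matrix (Fin u) (Fin u) K) * J) (i, k) l =
        α * v i * (if k = l then 1 else 0) := by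
      rw [← hY, Matrix.mul_apply, Fintype.sum_prod_type, Finset.sum_mul]
      refine Finset.sum_congr rfl fun j _ => ?_
      change ∑ m, (Y i j * (1 : Matrix (Fin u) (Fin u) K) k m) *
        (v j * (if m = l then 1 else 0)) = _
      rw [Finset.sum_eq_single k]
      · rw [Matrix.one_apply_eq]
        ring
      · intro b _ hb
        rw [Matrix.one_apply_ne (Ne.symm hb)]
        ring
      · intro h
        exact absurd (Finset.mem_univ _) h
    rw [h1, h2, Matrix.add_apply, Matrix.smul_apply, Matrix.one_apply, smul_eq_mul]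
    ring

lemma evX {Y : Matrix (Fin r) (Fin r) K} {X : Matrix (Fin u) (Fin u) K}
    (hT : TT Y X * TT Y X * TT Y X = TT Y X) {β : K} (hβ : (X - β • 1).det = 0) :
    (Y + β • 1) * (Y + β • 1) * (Y + β • 1) = Y + β • 1 := by
  obtain ⟨v, hv, hv0⟩ := Matrix.exists_mulVec_eq_zero_iff.2 hβ
  obtain ⟨i0, hi0⟩ : ∃ i, v i ≠ 0 := by
    by_contra hcon
    push Not at hcon
    exact hv (funext hcon)
  have hX : ∀ i, ∑ j, X i j * v j = β * v i := by
    intro i
    have h1 := congrFun hv0 i
    rw [Matrix.sub_mulVec, Matrix.smul_mulVec, Matrix.one_mulVec] at h1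
    simp only [Pi.sub_apply, Pi.smul_apply, smul_eq_mul, Pi.zero_apply, Matrix.mulVec,
      dotProduct] at h1
    linear_combination h1
  let J : Matrix (Fin r × Fin u) (Fin r) K := Matrix.of fun p l => v p.2 * (if p.1 = l then 1 else 0)
  have hJA : ∀ (A : Matrix (Fin r) (Fin r) K) (p : Fin r × Fin u) (l : Fin r),
      (J * A) p l = v p.2 * A p.1 l := by
    intro A p l
    simp only [J, Matrix.mul_apply, Matrix.of_apply]
    rw [Finset.sum_eq_single p.1]
    · simp
    · intro b _ hb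
      rw [if_neg (Ne.symm hb)]
      ring
    · intro h
      exact absurd (Finset.mem_univ _) h
  refine inter (TT Y X) J _ ?_ ?_ hT
  · intro A B hAB
    ext k l
    have h1 := congrFun (congrFun hAB (k, i0)) l
    rw [hJA, hJA] at h1
    exact mul_left_cancel₀ hi0 h1
  · ext p l
    obtain ⟨i, k⟩ := p
    rw [hJA, TT, Matrix.add_mul, Matrix.add_apply]
    have h1 : (Y ⊗ₖ (1 : Matrix (Fin u) (Fin u) K) * J) (i, k) l = v k * Y i l := by
      rw [Matrix.mul_apply, Fintype.sum_prod_type]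
      change ∑ j, ∑ m, (Y i j * (1 : Matrix (Fin u) (Fin u) K) k m) *
        (v m * (if j = l then 1 else 0)) = _
      rw [Finset.sum_eq_single l]
      · rw [Finset.sum_eq_single k]
        · rw [Matrix.one_apply_eq, if_pos rfl]
          ring
        · intro b _ hb
          rw [Matrix.one_apply_ne (Ne.symm hb)]
          ring
        · intro h
          exact absurd (Finset.mem_univ _) h
      · intro b _ hb
        rw [if_neg hb]
        simp
      · intro h
        exact absurd (Finset.mem_univ _) h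
    have h2 : ((1 : Matrix (Fin r) (Fin r) K) ⊗ₖ X * J) (i, k) l =
        β * v k * (if i = l then 1 else 0) := by
      rw [← hX, Matrix.mul_apply, Fintype.sum_prod_type, Finset.sum_comm, Finset.sum_mul]
      refine Finset.sum_congr rfl fun j _ => ?_
      change ∑ m, ((1 : Matrix (Fin r) (Fin r) K) i m * X k j) *
        (v j * (if m = l then 1 else 0)) = _
      rw [Finset.sum_eq_single i]
      · rw [Matrix.one_apply_eq]
        ring
      · intro b _ hb
        rw [Matrix.one_apply_ne (Ne.symm hb)]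
        ring
      · intro h
        exact absurd (Finset.mem_univ _) h
    rw [h1, h2, Matrix.add_apply, Matrix.smul_apply, Matrix.one_apply, smul_eq_mul]
    ring

lemma exists_ev [IsAlgClosed K] {m : ℕ} (hm : 0 < m) (Y : Matrix (Fin m) (Fin m) K) :
    ∃ α : K, (Y - α • 1).det = 0 := by
  have hdeg : Y.charpoly.degree ≠ 0 := by
    rw [Matrix.charpoly_degree_eq_dim, Fintype.card_fin]
    exact_mod_cast hm.ne'
  obtain ⟨α, hα⟩ := IsAlgClosed.exists_root Y.charpoly hdeg
  refine ⟨α, ?_⟩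
  rw [Polynomial.IsRoot, Matrix.eval_charpoly] at hα
  have h1 : Y - α • 1 = -(Matrix.scalar (Fin m) α - Y) := by
    rw [neg_sub, Matrix.scalar_apply, Matrix.smul_one_eq_diagonal]
  rw [h1, Matrix.det_neg, hα, mul_zero]

/-- the eigenvalues satisfy polynomial equations -/
lemma ev_cube {m : ℕ} {X : Matrix (Fin m) (Fin m) K} {α β : K}
    (h : (X + α • 1) * (X + α • 1) * (X + α • 1) = X + α • 1) (hβ : (X - β • 1).det = 0) :
    (α + β) ^ 3 = α + β := by
  obtain ⟨v, hv, hv0⟩ := Matrix.exists_mulVec_eq_zero_iff.2 hβ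
  obtain ⟨i0, hi0⟩ : ∃ i, v i ≠ 0 := by
    by_contra hcon
    push Not at hcon
    exact hv (funext hcon)
  have h0 : X *ᵥ v = β • v := by
    rw [Matrix.sub_mulVec, Matrix.smul_mulVec, Matrix.one_mulVec] at hv0
    exact sub_eq_zero.1 hv0
  have h1 : (X + α • 1) *ᵥ v = (α + β) • v := by
    rw [Matrix.add_mulVec, Matrix.smul_mulVec, Matrix.one_mulVec, h0, add_comm, add_smul]
  have h2 : ((X + α • 1) * (X + α • 1) * (X + α • 1)) *ᵥ v = (α + β) ^ 3 • v := by
    rw [← Matrix.mulVec_mulVec, h1, Matrix.mulVec_smul, ← Matrix.mulVec_mulVec, h1,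
      Matrix.mulVec_smul, h1, smul_smul, smul_smul]
    congr 1
    ring
  rw [h, h1] at h2
  have h3 := congrFun h2 i0
  simp only [Pi.smul_apply, smul_eq_mul] at h3
  exact (mul_right_cancel₀ hi0 h3).symm

lemma unit_cancel {m : ℕ} {M A : Matrix (Fin m) (Fin m) K} (hM : M.det ≠ 0) (h : M * A = 0) :
    A = 0 := by
  have hu : IsUnit M.det := isUnit_iff_ne_zero.2 hM
  have := congrArg (fun B => M⁻¹ * B) h
  simp only [← Matrix.mul_assoc, Matrix.nonsing_inv_mul _ hu, Matrix.one_mul, Matrix.mul_zero]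
    at this
  exact this

/-- a matrix with the only eigenvalue zero and a cubic equation vanishes -/
lemma zero_of [CharZero K] {m : ℕ} {Y : Matrix (Fin m) (Fin m) K} {β : K}
    (h0 : ∀ α : K, (Y - α • 1).det = 0 → α = 0) (hβ : β ^ 3 = β)
    (h : (Y + β • 1) * (Y + β • 1) * (Y + β • 1) = Y + β • 1) : Y = 0 := by
  have hdet : ∀ γ : K, γ ≠ 0 → (Y + γ • 1).det ≠ 0 := by
    intro γ hγ hd
    have : Y + γ • (1 : Matrix (Fin m) (Fin m) K) = Y - (-γ) • 1 := by
      rw [neg_smul, sub_neg_eq_add]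
    rw [this] at hd
    exact hγ (neg_eq_zero.1 (h0 _ hd))
  have hc : β * (β - 1) * (β + 1) = 0 := by linear_combination hβ
  have key : ∀ γ δ : K, γ ≠ 0 → δ ≠ 0 →
      (Y + γ • 1) * ((Y + δ • 1) * Y) = 0 → Y = 0 := by
    intro γ δ hγ hδ h1
    exact unit_cancel (hdet δ hδ) (unit_cancel (hdet γ hγ) h1)
  have hex : ∀ γ δ : K, (Y + γ • 1) * ((Y + δ • 1) * Y) =
      Y * Y * Y + (γ + δ) • (Y * Y) + (γ * δ) • Y := by
    intro γ δ
    simp only [Matrix.add_mul, Matrix.mul_add, Matrix.smul_mul, Matrix.mul_smul, Matrix.one_mul,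
      smul_add, smul_smul, Matrix.mul_assoc]
    module
  have hexp : (Y + β • 1) * (Y + β • 1) * (Y + β • 1) =
      Y * Y * Y + (3 * β) • (Y * Y) + (3 * β ^ 2) • Y + (β ^ 3) • 1 := by
    simp only [Matrix.add_mul, Matrix.mul_add, Matrix.smul_mul, Matrix.mul_smul, Matrix.one_mul,
      Matrix.mul_one, smul_add, smul_smul, Matrix.mul_assoc]
    module
  rw [hexp, hβ] at h
  have h' : Y * Y * Y + (3 * β) • (Y * Y) + (3 * β ^ 2 - 1) • Y = 0 := by
    have h2 := sub_eq_zero.2 h
    rw [← h2]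
    module
  rcases mul_eq_zero.1 hc with hc | hc
  · rcases mul_eq_zero.1 hc with hc | hc
    · subst hc
      apply key 1 (-1) one_ne_zero (neg_ne_zero.2 one_ne_zero)
      rw [hex, ← h']
      module
    · have hb : β = 1 := sub_eq_zero.1 hc
      subst hb
      apply key 1 2 one_ne_zero two_ne_zero
      rw [hex, ← h']
      module
  · have hb : β = -1 := eq_neg_of_add_eq_zero_left hc
    subst hb
    apply key (-1) (-2) (neg_ne_zero.2 one_ne_zero) (neg_ne_zero.2 two_ne_zero)
    rw [hex, ← h']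
    module

lemma quarter [CharZero K] {m : ℕ} {X : Matrix (Fin m) (Fin m) K} {α : K} (hα : α ^ 2 = 1 / 4)
    (h1 : (X + α • 1) * (X + α • 1) * (X + α • 1) = X + α • 1)
    (h2 : (X + (-α) • 1) * (X + (-α) • 1) * (X + (-α) • 1) = X + (-α) • 1) :
    X * X = (1 / 4 : K) • 1 := by
  have hexp : ∀ β : K, (X + β • 1) * (X + β • 1) * (X + β • 1) =
      X * X * X + (3 * β) • (X * X) + (3 * β ^ 2) • X + (β ^ 3) • 1 := by
    intro β
    simp only [Matrix.add_mul, Matrix.mul_add, Matrix.smul_mul, Matrix.mul_smul, Matrix.one_mul,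
      Matrix.mul_one, smul_add, smul_smul, Matrix.mul_assoc]
    module
  have hα0 : α ≠ 0 := by
    intro h
    rw [h] at hα
    norm_num at hα
  rw [hexp] at h1 h2
  have h3 : (6 * α) • (X * X) = (2 * α - 2 * α ^ 3) • (1 : Matrix (Fin m) (Fin m) K) := by
    have h4 := congrArg₂ (fun a b => a - b) h1 h2
    have h5 : (6 * α) • (X * X) + (2 * α ^ 3) • (1 : Matrix (Fin m) (Fin m) K) =
        (2 * α) • (1 : Matrix (Fin m) (Fin m) K) := by
      calc (6 * α) • (X * X) + (2 * α ^ 3) • (1 : Matrix (Fin m) (Fin m) K)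
          = X * X * X + (3 * α) • (X * X) + (3 * α ^ 2) • X + α ^ 3 • 1 -
            (X * X * X + (3 * -α) • (X * X) + (3 * (-α) ^ 2) • X + (-α) ^ 3 • 1) := by module
        _ = X + α • 1 - (X + -α • 1) := h4
        _ = _ := by module
    rw [sub_smul, ← h5]
    abel
  have h6 : (6 * α) ≠ 0 := mul_ne_zero (by norm_num) hα0
  have h7 : X * X = ((6 * α)⁻¹ * (2 * α - 2 * α ^ 3)) • (1 : Matrix (Fin m) (Fin m) K) := by
    rw [← smul_smul, ← h3, smul_smul, inv_mul_cancel₀ h6, one_smul]
  rw [h7]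
  congr 1
  have h8 : α ^ 3 = α * (1 / 4) := by rw [← hα]; ring
  rw [h8]
  field_simp
  ring

lemma sub_kron (A A' : Matrix (Fin r) (Fin r) K) (B : Matrix (Fin u) (Fin u) K) :
    (A - A') ⊗ₖ B = A ⊗ₖ B - A' ⊗ₖ B := by
  ext i j
  exact sub_mul _ _ _

lemma kron_sub (A : Matrix (Fin r) (Fin r) K) (B B' : Matrix (Fin u) (Fin u) K) :
    A ⊗ₖ (B - B') = A ⊗ₖ B - A ⊗ₖ B' := by
  ext i j
  exact mul_sub _ _ _

/-- determinants -/
lemma det_kY (Y : Matrix (Fin r) (Fin r) K) (α : K) :
    (Y ⊗ₖ (1 : Matrix (Fin u) (Fin u) K) - α • 1).det = (Y - α • 1).det ^ u := by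
  have h : Y ⊗ₖ (1 : Matrix (Fin u) (Fin u) K) - α • 1 =
      (Y - α • 1) ⊗ₖ (1 : Matrix (Fin u) (Fin u) K) := by
    rw [sub_kron, Matrix.smul_kronecker, Matrix.one_kronecker_one]
  rw [h, Matrix.det_kronecker]
  simp

lemma det_kX (X : Matrix (Fin u) (Fin u) K) (α : K) :
    ((1 : Matrix (Fin r) (Fin r) K) ⊗ₖ X - α • 1).det = (X - α • 1).det ^ r := by
  have h : (1 : Matrix (Fin r) (Fin r) K) ⊗ₖ X - α • 1 =
      (1 : Matrix (Fin r) (Fin r) K) ⊗ₖ (X - α • 1) := by
    rw [kron_sub, Matrix.kronecker_smul, Matrix.one_kronecker_one]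
  rw [h, Matrix.det_kronecker]
  simp

/-- comparison of two pure tensors -/
lemma tens_cmp {A p : Matrix (Fin r) (Fin r) K} {B p' : Matrix (Fin u) (Fin u) K}
    (h : A ⊗ₖ p' + p ⊗ₖ B = 0) (hp : p ≠ 0) (hp' : p' ≠ 0) :
    ∃ δ : K, A = δ • p ∧ B = -δ • p' := by
  obtain ⟨k, l, hkl⟩ : ∃ k l, p' k l ≠ 0 := by
    by_contra hcon
    push Not at hcon
    exact hp' (by ext k l; exact hcon k l)
  obtain ⟨i0, j0, hij⟩ : ∃ i j, p i j ≠ 0 := by
    by_contra hcon
    push Not at hcon
    exact hp (by ext k l; exact hcon k l)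
  have hh : ∀ i j k l, A i j * p' k l + p i j * B k l = 0 := by
    intro i j k l
    exact congrFun (congrFun h (i, k)) (j, l)
  refine ⟨-(B k l / p' k l), ?_, ?_⟩
  · ext i j
    have h1 := hh i j k l
    rw [Matrix.smul_apply, smul_eq_mul]
    field_simp
    linear_combination h1
  · ext k' l'
    rw [Matrix.smul_apply, smul_eq_mul]
    have h1 := hh i0 j0 k l
    have h2 := hh i0 j0 k' l'
    have h3 : p i0 j0 * (p' k l * B k' l') = p i0 j0 * (B k l * p' k' l') := by
      linear_combination p' k l * h2 - p' k' l' * h1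
    have h4 := mul_left_cancel₀ hij h3
    field_simp
    linear_combination h4

lemma dg_eq (P : Matrix.GeneralLinearGroup (Fin n) K) (s : Fin n → ℤ) :
    dg P s = cj P⁻¹ (Matrix.diagonal (fun j => (s j : K))) := by
  rw [cj_apply, inv_inv]
  rfl

lemma cube_of (s : ℤ) (h : |s| ≤ 1) : ((s : K)) * s * s = s := by
  have h1 := abs_le.1 h
  have h2 : s = -1 ∨ s = 0 ∨ s = 1 := by omega
  rcases h2 with h | h | h
  · rw [h]; push_cast; ring
  · rw [h]; push_cast; ring
  · rw [h]; push_cast; ring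

lemma dg_cube (P : Matrix.GeneralLinearGroup (Fin n) K) (s : Fin n → ℤ) (hs : ∀ j, |s j| ≤ 1) :
    dg P s * dg P s * dg P s = dg P s := by
  rw [dg_eq, ← map_mul, ← map_mul, Matrix.diagonal_mul_diagonal, Matrix.diagonal_mul_diagonal]
  congr 2
  funext j
  exact cube_of (s j) (hs j)

lemma dg_trace (P : Matrix.GeneralLinearGroup (Fin n) K) (s : Fin n → ℤ) :
    (dg P s).trace = ∑ j, (s j : K) := by
  rw [dg_eq, cj_trace, Matrix.trace_diagonal]

lemma dg_trace2 (P : Matrix.GeneralLinearGroup (Fin n) K) (s : Fin n → ℤ) :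
    (dg P s * dg P s).trace = ∑ j, (s j : K) * s j := by
  rw [dg_eq, ← map_mul, cj_trace, Matrix.diagonal_mul_diagonal, Matrix.trace_diagonal]

lemma sum_s (s : Fin n → ℤ) (hs : ∀ j, |s j| ≤ 1) : (∑ j, s j) =
    ((Finset.univ.filter fun j => s j = 1).card : ℤ) -
      ((Finset.univ.filter fun j => s j = -1).card : ℤ) := by
  rw [Finset.card_filter, Finset.card_filter]
  push_cast
  rw [← Finset.sum_sub_distrib]
  refine Finset.sum_congr rfl fun j _ => ?_
  have h1 := abs_le.1 (hs j)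
  have h2 : s j = -1 ∨ s j = 0 ∨ s j = 1 := by omega
  rcases h2 with h | h | h <;> simp [h]

lemma sum_s2 (s : Fin n → ℤ) (hs : ∀ j, |s j| ≤ 1) : (∑ j, s j * s j) =
    ((Finset.univ.filter fun j => s j = 1).card : ℤ) +
      ((Finset.univ.filter fun j => s j = -1).card : ℤ) := by
  rw [Finset.card_filter, Finset.card_filter]
  push_cast
  rw [← Finset.sum_add_distrib]
  refine Finset.sum_congr rfl fun j _ => ?_
  have h1 := abs_le.1 (hs j)
  have h2 : s j = -1 ∨ s j = 0 ∨ s j = 1 := by omega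
  rcases h2 with h | h | h <;> simp [h]

lemma card_s (s : Fin n → ℤ) (hs : ∀ j, |s j| ≤ 1) : (n : ℤ) =
    ((Finset.univ.filter fun j => s j = 0).card : ℤ) +
    ((Finset.univ.filter fun j => s j = 1).card : ℤ) +
      ((Finset.univ.filter fun j => s j = -1).card : ℤ) := by
  rw [Finset.card_filter, Finset.card_filter, Finset.card_filter]
  push_cast
  rw [← Finset.sum_add_distrib, ← Finset.sum_add_distrib]
  have h0 : (n : ℤ) = ∑ _j : Fin n, (1 : ℤ) := by simp
  rw [h0]
  refine Finset.sum_congr rfl fun j _ => ?_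
  have h1 := abs_le.1 (hs j)
  have h2 : s j = -1 ∨ s j = 0 ∨ s j = 1 := by omega
  rcases h2 with h | h | h <;> simp [h]

/-- the algebra of the third case -/
lemma caseC [CharZero K] (hr : 0 < r) (hu : 0 < u) {Y Y' : Matrix (Fin r) (Fin r) K}
    {X X' : Matrix (Fin u) (Fin u) K} (hY2 : Y * Y = (1 / 4 : K) • 1)
    (hX2 : X * X = (1 / 4 : K) • 1) (hYt : Y.trace = 0) (hXt : X.trace = 0)
    (hYt' : Y'.trace = 0) (hDT : TT Y' X' * TT Y X = 0) :
    ∃ c : K, TT Y' X' * TT Y' X' = c • (1 - TT Y X * TT Y X) := by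
  have hr0 : (r : K) ≠ 0 := Nat.cast_ne_zero.2 hr.ne'
  have hu0 : (u : K) ≠ 0 := Nat.cast_ne_zero.2 hu.ne'
  set p : Matrix (Fin r) (Fin r) K := (1 / 2 : K) • 1 + Y with hp
  set q : Matrix (Fin r) (Fin r) K := (1 / 2 : K) • 1 - Y with hq
  set p' : Matrix (Fin u) (Fin u) K := (1 / 2 : K) • 1 + X with hp'
  set q' : Matrix (Fin u) (Fin u) K := (1 / 2 : K) • 1 - X with hq'
  have tp : p.trace = (1 / 2 : K) * r := by
    rw [hp, Matrix.trace_add, hYt, Matrix.trace_smul, Matrix.trace_one, add_zero, smul_eq_mul,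
      Fintype.card_fin]
  have tq : q.trace = (1 / 2 : K) * r := by
    rw [hq, Matrix.trace_sub, hYt, Matrix.trace_smul, Matrix.trace_one, sub_zero, smul_eq_mul,
      Fintype.card_fin]
  have tp' : p'.trace = (1 / 2 : K) * u := by
    rw [hp', Matrix.trace_add, hXt, Matrix.trace_smul, Matrix.trace_one, add_zero, smul_eq_mul,
      Fintype.card_fin]
  have tq' : q'.trace = (1 / 2 : K) * u := by
    rw [hq', Matrix.trace_sub, hXt, Matrix.trace_smul, Matrix.trace_one, sub_zero, smul_eq_mul,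
      Fintype.card_fin]
  have hhr : (1 / 2 : K) * r ≠ 0 := mul_ne_zero (by norm_num) hr0
  have hhu : (1 / 2 : K) * u ≠ 0 := mul_ne_zero (by norm_num) hu0
  have np : p ≠ 0 := by
    intro h
    rw [h, Matrix.trace_zero] at tp
    exact hhr tp.symm
  have nq : q ≠ 0 := by
    intro h
    rw [h, Matrix.trace_zero] at tq
    exact hhr tq.symm
  have np' : p' ≠ 0 := by
    intro h
    rw [h, Matrix.trace_zero] at tp'
    exact hhu tp'.symm
  have nq' : q' ≠ 0 := by
    intro h
    rw [h, Matrix.trace_zero] at tq'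
    exact hhu tq'.symm
  -- products
  have hT2 : TT Y X * TT Y X = (1 / 2 : K) • 1 + (2 : K) • (Y ⊗ₖ X) := by
    unfold TT
    rw [Matrix.mul_add, Matrix.add_mul, Matrix.add_mul, ← Matrix.mul_kronecker_mul,
      ← Matrix.mul_kronecker_mul, ← Matrix.mul_kronecker_mul, ← Matrix.mul_kronecker_mul,
      Matrix.one_mul, Matrix.one_mul, Matrix.mul_one, Matrix.mul_one, Matrix.mul_one,
      Matrix.one_mul, hX2, hY2, Matrix.kronecker_smul, Matrix.smul_kronecker,
      Matrix.one_kronecker_one]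
    module
  have hpp : (2 : K) • (p ⊗ₖ p') = TT Y X * TT Y X + TT Y X := by
    rw [hT2, hp, hp', TT, Matrix.add_kronecker, Matrix.kronecker_add, Matrix.kronecker_add,
      Matrix.smul_kronecker, Matrix.smul_kronecker, Matrix.kronecker_smul, Matrix.kronecker_smul,
      Matrix.one_kronecker_one]
    module
  have hqq : (2 : K) • (q ⊗ₖ q') = TT Y X * TT Y X - TT Y X := by
    rw [hT2, hq, hq', TT, sub_kron, kron_sub, kron_sub,
      Matrix.smul_kronecker, Matrix.smul_kronecker, Matrix.kronecker_smul, Matrix.kronecker_smul,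
      Matrix.one_kronecker_one]
    module
  have h2 : (2 : K) ≠ 0 := two_ne_zero
  have e1 : TT Y' X' * (p ⊗ₖ p') = 0 := by
    have h : (2 : K) • (TT Y' X' * (p ⊗ₖ p')) = 0 := by
      rw [← Matrix.mul_smul, hpp, Matrix.mul_add, ← Matrix.mul_assoc, hDT, Matrix.zero_mul,
        add_zero]
    exact (smul_eq_zero.1 h).resolve_left h2
  have e2 : TT Y' X' * (q ⊗ₖ q') = 0 := by
    have h : (2 : K) • (TT Y' X' * (q ⊗ₖ q')) = 0 := by
      rw [← Matrix.mul_smul, hqq, Matrix.mul_sub, ← Matrix.mul_assoc, hDT, Matrix.zero_mul,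
        sub_zero]
    exact (smul_eq_zero.1 h).resolve_left h2
  have e1' : (Y' * p) ⊗ₖ p' + p ⊗ₖ (X' * p') = 0 := by
    rw [← e1, TT, Matrix.add_mul, ← Matrix.mul_kronecker_mul, ← Matrix.mul_kronecker_mul,
      Matrix.one_mul, Matrix.one_mul, add_comm]
  have e2' : (Y' * q) ⊗ₖ q' + q ⊗ₖ (X' * q') = 0 := by
    rw [← e2, TT, Matrix.add_mul, ← Matrix.mul_kronecker_mul, ← Matrix.mul_kronecker_mul,
      Matrix.one_mul, Matrix.one_mul, add_comm]
  obtain ⟨δ, hd1, hd2⟩ := tens_cmp e1' np np'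
  obtain ⟨δ', hd3, hd4⟩ := tens_cmp e2' nq nq'
  have hY' : Y' = δ • p + δ' • q := by
    rw [← hd1, ← hd3, ← Matrix.mul_add]
    have : p + q = 1 := by
      rw [hp, hq]
      module
    rw [this, Matrix.mul_one]
  have hX' : X' = -δ • p' + -δ' • q' := by
    rw [← hd2, ← hd4, ← Matrix.mul_add]
    have : p' + q' = 1 := by
      rw [hp', hq']
      module
    rw [this, Matrix.mul_one]
  have hdd : δ' = -δ := by
    rw [hY', Matrix.trace_add, Matrix.trace_smul, Matrix.trace_smul, tp, tq, smul_eq_mul,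
      smul_eq_mul] at hYt'
    have h : (1 / 2 * (r : K)) * (δ + δ') = 0 := by linear_combination hYt'
    have := (mul_eq_zero.1 h).resolve_left hhr
    linear_combination this
  have hY'' : Y' = (2 * δ) • Y := by
    rw [hY', hdd, hp, hq]
    module
  have hX'' : X' = -(2 * δ) • X := by
    rw [hX', hdd, hp', hq']
    module
  refine ⟨4 * δ ^ 2, ?_⟩
  rw [hT2]
  unfold TT
  rw [hY'', hX'', Matrix.mul_add, Matrix.add_mul, Matrix.add_mul, ← Matrix.mul_kronecker_mul,
    ← Matrix.mul_kronecker_mul, ← Matrix.mul_kronecker_mul, ← Matrix.mul_kronecker_mul,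
    Matrix.one_mul, Matrix.one_mul, Matrix.mul_one, Matrix.mul_one, Matrix.mul_one,
    Matrix.one_mul, Matrix.smul_mul, Matrix.mul_smul, Matrix.smul_mul, Matrix.mul_smul, hX2, hY2,
    Matrix.kronecker_smul, Matrix.kronecker_smul, Matrix.kronecker_smul, Matrix.smul_kronecker,
    Matrix.smul_kronecker, Matrix.smul_kronecker, Matrix.smul_kronecker, Matrix.kronecker_smul,
    Matrix.one_kronecker_one]
  module

end TRI82

open TRI82 in
theorem st_TRI (hSSL : ST_SSL) (hTNS : ST_TNS) : ST_TRI := by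
  intro K _ _ _ n ψ P s a C hn hI hC hs hT
  obtain ⟨r, u, e, R, hF1, hF2⟩ := hTNS K n ψ a C hn hI hC
  have hψ := hI.1
  have hsk := hI.2.2.2
  have hCa : C ≤ a := hC.1
  -- r, u > 0
  have hru : n = r * u := by
    have := Fintype.card_congr e
    simpa using this
  have hr : 0 < r := by
    rcases Nat.eq_zero_or_pos r with h | h
    · rw [h, zero_mul] at hru
      omega
    · exact h
  have hu : 0 < u := by
    rcases Nat.eq_zero_or_pos u with h | h
    · rw [h, mul_zero] at hru
      omega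
    · exact h
  -- decomposition of elements
  have hdec : ∀ D ∈ a, ∃ x ∈ a, ∃ y ∈ C, D = x + y ∧ (∀ B ∈ C, x * B = B * x) ∧
      ∃ (X : Matrix (Fin u) (Fin u) K) (Y : Matrix (Fin r) (Fin r) K),
        Ph e R x = (1 : Matrix (Fin r) (Fin r) K) ⊗ₖ X ∧
        Ph e R y = Y ⊗ₖ (1 : Matrix (Fin u) (Fin u) K) ∧ X.trace = 0 ∧ Y.trace = 0 := by
    intro D hD
    obtain ⟨x, hx, y, hy, hxy, hcom⟩ := hSSL K n ψ a C hI hC D hD
    obtain ⟨X, hX⟩ := hF1 x hcom
    obtain ⟨Y, hY⟩ := hF2 y (fun x' _ h => h y hy)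
    have hX' : Ph e R x = (1 : Matrix (Fin r) (Fin r) K) ⊗ₖ X := Ph_eq e R x _ hX
    have hY' : Ph e R y = Y ⊗ₖ (1 : Matrix (Fin u) (Fin u) K) := Ph_eq e R y _ hY
    refine ⟨x, hx, y, hy, hxy, hcom, X, Y, hX', hY', ?_, ?_⟩
    · have h1 := skew_trace hψ (hsk x hx)
      rw [← Ph_trace e R x, hX', Matrix.trace_kronecker, Matrix.trace_one, Fintype.card_fin] at h1
      exact (mul_eq_zero.1 h1).resolve_left (Nat.cast_ne_zero.2 hr.ne')
    · have h1 := skew_trace hψ (hsk y (hCa hy))
      rw [← Ph_trace e R y, hY', Matrix.trace_kronecker, Matrix.trace_one, Fintype.card_fin] at h1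
      exact (mul_eq_zero.1 h1).resolve_right (Nat.cast_ne_zero.2 hu.ne')
  obtain ⟨x, hx, y, hy, hxy, hcom, X, Y, hX, hY, hXt, hYt⟩ := hdec _ hT
  have hTT : Ph e R (dg P s) = TT Y X := by
    rw [hxy, map_add, hX, hY]
    rfl
  have hT3 : TT Y X * TT Y X * TT Y X = TT Y X := by
    rw [← hTT, ← map_mul, ← map_mul, dg_cube P s hs]
  have hsymX : ∀ β : K, (X - β • 1).det = 0 → (X - (-β) • 1).det = 0 := by
    intro β hβ
    have h1 : (x - β • 1).det = 0 := by
      rw [← Ph_det e R, map_sub, map_smul, map_one, hX, det_kX, hβ]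
      exact zero_pow hr.ne'
    have h2 := skew_det hψ (hsk x hx) β h1
    have h3 : x + β • (1 : Matrix (Fin n) (Fin n) K) = x - (-β) • 1 := by
      rw [neg_smul, sub_neg_eq_add]
    rw [h3, ← Ph_det e R, map_sub, map_smul, map_one, hX, det_kX] at h2
    exact pow_eq_zero_iff hr.ne' |>.1 h2
  have hsymY : ∀ β : K, (Y - β • 1).det = 0 → (Y - (-β) • 1).det = 0 := by
    intro β hβ
    have h1 : (y - β • 1).det = 0 := by
      rw [← Ph_det e R, map_sub, map_smul, map_one, hY, det_kY, hβ]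
      exact zero_pow hu.ne'
    have h2 := skew_det hψ (hsk y (hCa hy)) β h1
    have h3 : y + β • (1 : Matrix (Fin n) (Fin n) K) = y - (-β) • 1 := by
      rw [neg_smul, sub_neg_eq_add]
    rw [h3, ← Ph_det e R, map_sub, map_smul, map_one, hY, det_kY] at h2
    exact pow_eq_zero_iff hu.ne' |>.1 h2
  obtain ⟨α0, hα0⟩ := exists_ev hr Y
  obtain ⟨β0, hβ0⟩ := exists_ev hu X
  by_cases hA : ∀ α : K, (Y - α • 1).det = 0 → α = 0
  · -- Y = 0
    left
    have h00 : α0 = 0 := hA α0 hα0
    have h1 := evY hT3 hα0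
    have h2 := ev_cube h1 hβ0
    rw [h00, zero_add] at h2
    have hY0 : Y = 0 := zero_of hA h2 (evX hT3 hβ0)
    have hy0 : y = 0 := by
      apply Ph_inj e R
      rw [hY, hY0, map_zero, Matrix.zero_kronecker]
    intro B hB
    rw [hxy, hy0, add_zero]
    exact hcom B hB
  · by_cases hB : ∀ β : K, (X - β • 1).det = 0 → β = 0
    · right; left
      have h00 : β0 = 0 := hB β0 hβ0
      have h1 := evX hT3 hβ0
      have h2 := ev_cube h1 hα0
      rw [h00, zero_add] at h2
      have hX0 : X = 0 := zero_of hB h2 (evY hT3 hα0)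
      have hx0 : x = 0 := by
        apply Ph_inj e R
        rw [hX, hX0, map_zero, Matrix.kronecker_zero]
      intro x' _ hx'
      rw [hxy, hx0, zero_add]
      exact (hx' y hy).symm
    · right; right
      push Not at hA hB
      obtain ⟨α, hα, hαne⟩ := hA
      obtain ⟨β, hβ, hβne⟩ := hB
      have h1 := evY hT3 hα
      have h2 := evY hT3 (hsymY α hα)
      have h3 := evX hT3 hβ
      have h4 := evX hT3 (hsymX β hβ)
      have c1 : (α + β) ^ 3 = α + β := ev_cube h1 hβ
      have c2 : (α + -β) ^ 3 = α + -β := ev_cube h1 (hsymX β hβ)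
      have d1 : α * (α ^ 2 + 3 * β ^ 2 - 1) = 0 := by
        have : (2 : K) * (α * (α ^ 2 + 3 * β ^ 2 - 1)) = 0 := by linear_combination c1 + c2
        exact (mul_eq_zero.1 this).resolve_left two_ne_zero
      have d2 : β * (3 * α ^ 2 + β ^ 2 - 1) = 0 := by
        have : (2 : K) * (β * (3 * α ^ 2 + β ^ 2 - 1)) = 0 := by linear_combination c1 - c2
        exact (mul_eq_zero.1 this).resolve_left two_ne_zero
      have d1' := (mul_eq_zero.1 d1).resolve_left hαne
      have d2' := (mul_eq_zero.1 d2).resolve_left hβne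
      have hα4 : α ^ 2 = 1 / 4 := by
        have : (8 : K) * (α ^ 2 - 1 / 4) = 0 := by linear_combination 3 * d2' - d1'
        have := (mul_eq_zero.1 this).resolve_left (by norm_num)
        linear_combination this
      have hβ4 : β ^ 2 = 1 / 4 := by
        have : (8 : K) * (β ^ 2 - 1 / 4) = 0 := by linear_combination 3 * d1' - d2'
        have := (mul_eq_zero.1 this).resolve_left (by norm_num)
        linear_combination this
      have hX2 : X * X = (1 / 4 : K) • 1 := quarter hα4 h1 h2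
      have hY2 : Y * Y = (1 / 4 : K) • 1 := quarter hβ4 h3 h4
      refine ⟨?_, ?_⟩
      · -- cardinalities
        have ht := skew_trace hψ (hsk _ hT)
        rw [dg_trace] at ht
        have ht' : ((∑ j, s j : ℤ) : K) = 0 := by
          push_cast
          exact ht
        have ht'' : (∑ j, s j : ℤ) = 0 := by exact_mod_cast ht'
        rw [sum_s s hs] at ht''
        have hq : (dg P s * dg P s).trace = (1 / 2 : K) * n := by
          rw [← Ph_trace e R, map_mul, hTT]
          have hT2 : TT Y X * TT Y X = (1 / 2 : K) • 1 + (2 : K) • (Y ⊗ₖ X) := by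
            unfold TT
            rw [Matrix.mul_add, Matrix.add_mul, Matrix.add_mul, ← Matrix.mul_kronecker_mul,
              ← Matrix.mul_kronecker_mul, ← Matrix.mul_kronecker_mul, ← Matrix.mul_kronecker_mul,
              Matrix.one_mul, Matrix.one_mul, Matrix.mul_one, Matrix.mul_one, Matrix.mul_one,
              Matrix.one_mul, hX2, hY2, Matrix.kronecker_smul, Matrix.smul_kronecker,
              Matrix.one_kronecker_one]
            module
          rw [hT2, Matrix.trace_add, Matrix.trace_smul, Matrix.trace_smul, Matrix.trace_one,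
            Matrix.trace_kronecker, hXt, hru]
          simp
        rw [dg_trace2] at hq
        have hq' : ((2 * ∑ j, s j * s j : ℤ) : K) = ((n : ℤ) : K) := by
          push_cast
          rw [hq]
          ring
        have hq'' : (2 * ∑ j, s j * s j : ℤ) = (n : ℤ) := by exact_mod_cast hq'
        rw [sum_s2 s hs, card_s s hs] at hq''
        omega
      · intro D hD hTD hDT
        obtain ⟨x', hx', y', hy', hxy', hcom', X', Y', hX', hY', hXt', hYt'⟩ := hdec D hD
        have hDD : Ph e R D = TT Y' X' := by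
          rw [hxy', map_add, hX', hY']
          rfl
        have h5 : TT Y' X' * TT Y X = 0 := by
          rw [← hTT, ← hDD, ← map_mul, hDT, map_zero]
        obtain ⟨c, hc⟩ := caseC hr hu hY2 hX2 hYt hXt hYt' h5
        refine ⟨c, ?_⟩
        apply Ph_inj e R
        rw [map_mul, hDD, hc, map_smul, map_sub, map_one, map_mul, hTT]

end MT
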